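import Pool.Agent.helper6.KR.SpecC

set_option autoImplicit false

namespace Pool.Agent.KR

lemma S3_sat {M : Type} [PAM M] (A : Fm) (hA : BAx A) (ρ : ℕ → M) : A.sat (std M) ρ := by
  cases hA with
  | refl => intro x _; rfl
  | symm => intro x _ y _ h; exact Eq.symm h
  | trans => intro x _ y _ z _ h1 h2; exact Eq.trans h1 h2
  | congS =>
    intro x _ y _ h
    have h' : x = y := h
    show x + 1 = y + 1
    rw [h']
  | congOp o =>
    intro x _ y _ z _ w _ h1 h2
    have h1' : x = y := h1
    have h2' : z = w := h2
    show (std M).op o x z = (std M).op o y w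
    rw [h1', h2']
  | succ_ne =>
    intro x _ h
    have h' : x + 1 = 0 := h
    have h1 : (1 : M) = 0 := (add_eq_zero.1 h').2
    exact one_ne_zero h1
  | succ_inj =>
    intro x _ y _ h
    have h' : x + 1 = y + 1 := h
    show x = y
    exact add_right_cancel h'
  | add_zero =>
    intro x _
    show x + 0 = x
    exact _root_.add_zero x
  | add_succ =>
    intro x _ y _
    show x + (y + 1) = (x + y) + 1
    rw [add_assoc]
  | mul_zero =>
    intro x _
    show x * 0 = 0
    exact MulZeroClass.mul_zero x
  | mul_succ =>
    intro x _ y _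
    show x * (y + 1) = x * y + x
    rw [mul_add, mul_one]

theorem S3 (h1 : TR2_stmt) : S3_stmt := by
  intro A hA M _ T s ρ
  exact ((h1 M T s).2 A ρ).2 (S3_sat A hA _)

end Pool.Agent.KR
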