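import Pool.Agent.helper6.KR.SpecB

set_option autoImplicit false

namespace Pool.Agent.KR

lemma XT_dec (t : Tm) : ∃ (e : ℕ) (c : Tm), t = Tm.succ^[e] c ∧ ∀ s, c ≠ .succ s := by
  induction t with
  | var i => exact ⟨0, .var i, rfl, fun s h => by cases h⟩
  | zero => exact ⟨0, .zero, rfl, fun s h => by cases h⟩
  | succ t ih =>
    obtain ⟨e, c, h1, h2⟩ := ih
    refine ⟨e + 1, c, ?_, h2⟩
    rw [Function.iterate_succ_apply', ← h1]
  | op o u v _ _ => exact ⟨0, .op o u v, rfl, fun s h => by cases h⟩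

lemma XT_occ (x e : ℕ) (c : Tm) : (Tm.succ^[e] c).occ x ↔ c.occ x := by
  induction e with
  | zero => rfl
  | succ e ih =>
    rw [Function.iterate_succ_apply']
    exact ih

lemma XT_nest (x K e : ℕ) (c : Tm) : (Tm.succ^[e] c).nest x K ↔ c.nest x K := by
  induction e with
  | zero => rfl
  | succ e ih =>
    rw [Function.iterate_succ_apply', ← ih]
    cases K <;> rfl

lemma XT_4 (x : ℕ) (t : ℕ → Tm) (h : RegT x t) :
    ∀ σ : ℕ → ℕ, StrictMono σ → RegT x (fun n => t (σ n)) := by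
  induction h with
  | abs h => intro σ _; exact RegT.abs (fun n => h (σ n))
  | var e he h => intro σ hσ; exact RegT.var (fun n => e (σ n)) (he.comp hσ.monotone) (fun n => h (σ n))
  | op e o he _ _ h ih1 ih2 =>
    intro σ hσ
    exact RegT.op (fun n => e (σ n)) o (he.comp hσ.monotone) (ih1 σ hσ) (ih2 σ hσ) (fun n => h (σ n))

lemma XT_5 (x : ℕ) (F : ℕ → Fm) (h : RegF x F) :
    ∀ σ : ℕ → ℕ, StrictMono σ → RegF x (fun n => F (σ n)) := by
  induction h with
  | eq h1 h2 h => intro σ hσ; exact RegF.eq (XT_4 _ _ h1 σ hσ) (XT_4 _ _ h2 σ hσ) (fun n => h (σ n))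
  | bot h => intro σ _; exact RegF.bot (fun n => h (σ n))
  | bin c _ _ h ih1 ih2 => intro σ hσ; exact RegF.bin c (ih1 σ hσ) (ih2 σ hσ) (fun n => h (σ n))
  | qu q _ h ih => intro σ hσ; exact RegF.qu q (ih σ hσ) (fun n => h (σ n))

lemma XT_6 (m : ℕ) (t : ℕ → Tm) (σ : ℕ → ℕ) (hσ : StrictMono σ) (h : GoodT m t) :
    GoodT m (fun n => t (σ n)) := by
  obtain ⟨e, c, he, ht, hc⟩ := h
  refine ⟨fun n => e (σ n), fun n => c (σ n), he.comp hσ.monotone, fun n => ht (σ n), ?_⟩
  rcases hc with ⟨j, hj, h⟩ | h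
  · exact Or.inl ⟨j, hj, fun n => h (σ n)⟩
  · exact Or.inr fun n => h (σ n)

/-- the kinds of a term with the core `c` -/
def XT_P (x K : ℕ) (c : Tm) : Option (Option Op) → Prop
  | none => ¬ c.occ x
  | some none => c = .var x
  | some (some o) => ∃ u v, c = .op o u v ∧ ∃ K', K = K' + 1 ∧ u.nest x K' ∧ v.nest x K'

lemma XT_kind (x K : ℕ) (c : Tm) (hs : ∀ s, c ≠ .succ s) (hn : c.nest x K) : ∃ i, XT_P x K c i := by
  cases c with
  | var i =>
    by_cases h : i = x
    · subst h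
      exact ⟨some none, rfl⟩
    · exact ⟨none, h⟩
  | zero => exact ⟨none, fun h => h⟩
  | succ s => exact absurd rfl (hs s)
  | op o u v =>
    cases K with
    | zero =>
      refine ⟨none, ?_⟩
      rintro (h | h)
      · exact hn.1 h
      · exact hn.2 h
    | succ K => exact ⟨some (some o), u, v, rfl, K, rfl, hn.1, hn.2⟩

lemma XT_1 (h1 : PIG_stmt) : ∀ (K x : ℕ) (t : ℕ → Tm), (∀ n, (t n).nest x K) →
    ∃ σ : ℕ → ℕ, StrictMono σ ∧ RegT x (fun n => t (σ n)) := by
  intro K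
  induction K with
  | zero =>
    intro x t ht
    choose e c hec hs using fun n => XT_dec (t n)
    obtain ⟨i, σ, hσ, hi⟩ := h1.1 (Option (Option Op)) (fun i n => XT_P x 0 (c n) i) (fun n =>
      XT_kind x 0 (c n) (hs n) (by rw [← XT_nest x 0 (e n) (c n), ← hec n]; exact ht n))
    obtain ⟨τ, hτ, hm⟩ := h1.2 (fun n => e (σ n))
    rcases i with _ | _ | o
    · refine ⟨σ, hσ, RegT.abs fun n h => hi n ?_⟩
      have h' : (t (σ n)).occ x := h
      rw [hec (σ n), XT_occ] at h'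
      exact h'
    · refine ⟨fun n => σ (τ n), hσ.comp hτ, RegT.var (fun n => e (σ (τ n))) hm fun n => ?_⟩
      show t (σ (τ n)) = _
      have h2 : c (σ (τ n)) = .var x := hi (τ n)
      rw [hec (σ (τ n)), h2]
    · obtain ⟨u, v, _, K', hK', _⟩ := hi 0
      omega
  | succ K ih =>
    intro x t ht
    choose e c hec hs using fun n => XT_dec (t n)
    obtain ⟨i, σ, hσ, hi⟩ := h1.1 (Option (Option Op)) (fun i n => XT_P x (K + 1) (c n) i) (fun n =>
      XT_kind x (K + 1) (c n) (hs n) (by rw [← XT_nest x (K + 1) (e n) (c n), ← hec n]; exact ht n))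
    obtain ⟨τ, hτ, hm⟩ := h1.2 (fun n => e (σ n))
    rcases i with _ | _ | o
    · refine ⟨σ, hσ, RegT.abs fun n h => hi n ?_⟩
      have h' : (t (σ n)).occ x := h
      rw [hec (σ n), XT_occ] at h'
      exact h'
    · refine ⟨fun n => σ (τ n), hσ.comp hτ, RegT.var (fun n => e (σ (τ n))) hm fun n => ?_⟩
      show t (σ (τ n)) = _
      have h2 : c (σ (τ n)) = .var x := hi (τ n)
      rw [hec (σ (τ n)), h2]
    · have hi' : ∀ n, ∃ u v, c (σ n) = .op o u v ∧ u.nest x K ∧ v.nest x K := by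
        intro n
        obtain ⟨u, v, h2, K', hK', h3, h4⟩ := hi n
        have : K' = K := by omega
        subst this
        exact ⟨u, v, h2, h3, h4⟩
      choose u v huv hu hv using hi'
      obtain ⟨ρ, hρ, hru⟩ := ih x (fun n => u (τ n)) (fun n => hu (τ n))
      obtain ⟨π, hπ, hrv⟩ := ih x (fun n => v (τ (ρ n))) (fun n => hv (τ (ρ n)))
      refine ⟨fun n => σ (τ (ρ (π n))), hσ.comp (hτ.comp (hρ.comp hπ)),
        RegT.op (fun n => e (σ (τ (ρ (π n))))) o (hm.comp (hρ.comp hπ).monotone) (XT_4 x _ hru π hπ) hrv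
          fun n => ?_⟩
      show t (σ (τ (ρ (π n)))) = _
      rw [hec (σ (τ (ρ (π n)))), huv]

lemma XT_2 (h1 : PIG_stmt) (m : ℕ) (t : ℕ → Tm) :
    ∃ σ : ℕ → ℕ, StrictMono σ ∧ GoodT m (fun n => t (σ n)) := by
  choose e c hec hs using fun n => XT_dec (t n)
  obtain ⟨i, σ, hσ, hi⟩ := h1.1 (Option (Fin m))
    (fun i n => (∀ j, i = some j → c n = .var (j : ℕ)) ∧ (i = none → (c n).core m)) (fun n => by
      rcases hcn : c n with i | _ | s | ⟨o, u, v⟩
      · by_cases him : i < m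
        · refine ⟨some ⟨i, him⟩, fun j hj => ?_, fun h => by cases h⟩
          rw [← Option.some.inj hj]
        · exact ⟨none, fun j hj => (by cases hj), fun _ => (by show m ≤ i; omega)⟩
      · exact ⟨none, fun j hj => (by cases hj), fun _ => trivial⟩
      · exact absurd hcn (hs n s)
      · exact ⟨none, fun j hj => (by cases hj), fun _ => trivial⟩)
  obtain ⟨τ, hτ, hm⟩ := h1.2 (fun n => e (σ n))
  refine ⟨fun n => σ (τ n), hσ.comp hτ, fun n => e (σ (τ n)), fun n => c (σ (τ n)), hm,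
    fun n => hec (σ (τ n)), ?_⟩
  rcases i with _ | j
  · exact Or.inr fun n => (hi (τ n)).2 rfl
  · exact Or.inl ⟨j, j.2, fun n => (hi (τ n)).1 j rfl⟩

/-- the kinds of a formula -/
def XT_Q (A : Fm) : Option (Option (Conn ⊕ Quant)) → Prop
  | none => ∃ s t, A = .eq s t
  | some none => A = .bot
  | some (some (.inl c)) => ∃ B C, A = .bin c B C
  | some (some (.inr q)) => ∃ B, A = .qu q B

lemma XT_kindF (A : Fm) : ∃ i, XT_Q A i := by
  cases A with
  | eq s t => exact ⟨none, s, t, rfl⟩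
  | bot => exact ⟨some none, rfl⟩
  | bin c B C => exact ⟨some (some (.inl c)), B, C, rfl⟩
  | qu q B => exact ⟨some (some (.inr q)), B, rfl⟩

lemma XT_3a (h1 : PIG_stmt) (K x : ℕ) (F : ℕ → Fm) (hn : ∀ n, (F n).nest K x)
    (h : ∀ n, ∃ s t, F n = .eq s t) : ∃ σ : ℕ → ℕ, StrictMono σ ∧ RegF x (fun n => F (σ n)) := by
  choose s t hst using h
  have hs : ∀ n, (s n).nest x K ∧ (t n).nest x K := fun n => by
    have := hn n
    rw [hst n] at this
    exact this
  obtain ⟨σ, hσ, h2⟩ := XT_1 h1 K x s fun n => (hs n).1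
  obtain ⟨τ, hτ, h3⟩ := XT_1 h1 K x (fun n => t (σ n)) fun n => (hs (σ n)).2
  exact ⟨fun n => σ (τ n), hσ.comp hτ, RegF.eq (XT_4 x _ h2 τ hτ) h3 fun n => hst _⟩

lemma XT_3 (h1 : PIG_stmt) : ∀ (B K x : ℕ) (F : ℕ → Fm), (∀ n, (F n).nest K x) →
    (∀ n, (F n).depth ≤ B) → ∃ σ : ℕ → ℕ, StrictMono σ ∧ RegF x (fun n => F (σ n)) := by
  intro B
  induction B with
  | zero =>
    intro K x F hn hd
    obtain ⟨i, σ, hσ, hi⟩ := h1.1 _ (fun i n => XT_Q (F n) i) (fun n => XT_kindF (F n))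
    rcases i with _ | _ | c | q
    · obtain ⟨τ, hτ, h2⟩ := XT_3a h1 K x (fun n => F (σ n)) (fun n => hn (σ n)) hi
      exact ⟨fun n => σ (τ n), hσ.comp hτ, h2⟩
    · exact ⟨σ, hσ, RegF.bot hi⟩
    · obtain ⟨A, C, h⟩ := hi 0
      have h3 := hd (σ 0)
      rw [h] at h3
      exact absurd h3 (by simp [Fm.depth])
    · obtain ⟨A, h⟩ := hi 0
      have h3 := hd (σ 0)
      rw [h] at h3
      exact absurd h3 (by simp [Fm.depth])
  | succ B ih =>
    intro K x F hn hd
    obtain ⟨i, σ, hσ, hi⟩ := h1.1 _ (fun i n => XT_Q (F n) i) (fun n => XT_kindF (F n))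
    rcases i with _ | _ | c | q
    · obtain ⟨τ, hτ, h2⟩ := XT_3a h1 K x (fun n => F (σ n)) (fun n => hn (σ n)) hi
      exact ⟨fun n => σ (τ n), hσ.comp hτ, h2⟩
    · exact ⟨σ, hσ, RegF.bot hi⟩
    · choose A C hAC using hi
      have hn' : ∀ n, (A n).nest K x ∧ (C n).nest K x := fun n => by
        have := hn (σ n)
        rw [hAC n] at this
        exact this
      have hd' : ∀ n, (A n).depth ≤ B ∧ (C n).depth ≤ B := fun n => by
        have := hd (σ n)
        rw [hAC n] at this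
        simp only [Fm.depth] at this
        omega
      obtain ⟨τ, hτ, h2⟩ := ih K x A (fun n => (hn' n).1) (fun n => (hd' n).1)
      obtain ⟨ρ, hρ, h3⟩ := ih K x (fun n => C (τ n)) (fun n => (hn' (τ n)).2) (fun n => (hd' (τ n)).2)
      exact ⟨fun n => σ (τ (ρ n)), hσ.comp (hτ.comp hρ),
        RegF.bin c (XT_5 x _ h2 ρ hρ) h3 fun n => hAC _⟩
    · choose A hA using hi
      have hn' : ∀ n, (A n).nest K (x + 1) := fun n => by
        have := hn (σ n)
        rw [hA n] at this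
        exact this
      have hd' : ∀ n, (A n).depth ≤ B := fun n => by
        have := hd (σ n)
        rw [hA n] at this
        simp only [Fm.depth] at this
        omega
      obtain ⟨τ, hτ, h2⟩ := ih K (x + 1) A hn' hd'
      exact ⟨fun n => σ (τ n), hσ.comp hτ, RegF.qu q h2 fun n => hA _⟩

theorem XT (h1 : PIG_stmt) : XT_stmt :=
  ⟨XT_1 h1, XT_2 h1, fun K B x F hn hd => XT_3 h1 B K x F hn hd, fun x t σ hσ h => XT_4 x t h σ hσ,
    fun x F σ hσ h => XT_5 x F h σ hσ, fun m t σ hσ h => XT_6 m t σ hσ h⟩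

end Pool.Agent.KR
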